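import Pool.Agent.H99.SIF.Un

set_option autoImplicit false

namespace SIFU
open Finset

/-- the trivial bound `k + 2 x D` -/
theorem deg2 {P Q : Type} [Fintype P] [Fintype Q] [DecidableEq P] [DecidableEq Q]
    {A : P → Q → Bool} {k x D : ℕ} (hP : Fintype.card P = k + x) (hQ : Fintype.card Q = k + x)
    (hU : U A k) (hr : ∀ r, (Nr A r).card ≤ D) (hc : ∀ c, (Nc A c).card ≤ D) :
    (E A).card ≤ k + 2 * x * D := by
  rcases (E A).eq_empty_or_nonempty with h | ⟨⟨r0, c0⟩, h0⟩
  · rw [h]; simp
  · have h0' : A r0 c0 = true := by simpa [E] using h0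
    obtain ⟨R, C, hC, _, _⟩ := hU r0 c0 h0'
    rw [card_E_rows, ← sum_sdiff (subset_univ R)]
    have h1 : ∑ r ∈ univ \ R, (Nr A r).card ≤ x * D := by
      calc ∑ r ∈ univ \ R, (Nr A r).card ≤ ∑ r ∈ univ \ R, D := sum_le_sum (fun r _ => hr r)
        _ = (univ \ R).card * D := by rw [sum_const, smul_eq_mul]
        _ = x * D := by
          rw [card_sdiff_of_subset (subset_univ _), hC.cR, card_univ, hP, Nat.add_sub_cancel_left]
    have h3 : ∀ r ∈ R, (Nr A r).card = 1 + ((univ \ C).filter (fun c => A r c = true)).card := by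
      intro r hr'
      rw [← hC.row r hr', ← card_union_of_disjoint]
      · apply congrArg Finset.card
        ext c
        simp only [Nr, mem_filter, mem_univ, true_and, mem_union, mem_inter, mem_sdiff]
        tauto
      · rw [disjoint_left]
        intro c hc1 hc2
        simp only [mem_filter, mem_sdiff, mem_inter] at hc1 hc2
        exact hc2.1.2 hc1.1
    have h4 : ∑ r ∈ R, ((univ \ C).filter (fun c => A r c = true)).card ≤ x * D := by
      simp_rw [card_filter]
      rw [sum_comm]
      calc ∑ c ∈ univ \ C, ∑ r ∈ R, (if A r c = true then 1 else 0)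
          ≤ ∑ c ∈ univ \ C, D := by
            apply sum_le_sum
            intro c _
            rw [← card_filter]
            refine le_trans (card_le_card ?_) (hc c)
            intro r hr'
            rw [mem_filter] at hr'
            exact mem_Nc.2 hr'.2
        _ = (univ \ C).card * D := by rw [sum_const, smul_eq_mul]
        _ = x * D := by
          rw [card_sdiff_of_subset (subset_univ _), hC.cC, card_univ, hQ, Nat.add_sub_cancel_left]
    have h2 : ∑ r ∈ R, (Nr A r).card ≤ k + x * D := by
      rw [sum_congr rfl h3, sum_add_distrib, sum_const, hC.cR, smul_eq_mul, mul_one]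
      omega
    have h5 : 2 * x * D = x * D + x * D := by ring
    omega

/-- The case distinction on `w` behind the extra exact ranges. -/
theorem range84 {k x w D : ℤ} (hk : 2 ≤ k) (hw : 0 ≤ w) (hDx : D + w = x + 1)
    (hc : (k ≤ 8 ∧ 6 ≤ x) ∨ x = 6 ∨ x = 7 ∨ x = 9) :
    (2 * w + 1 ≤ D ∧ w ≤ 4) ∨ (2 * w + 1 ≤ D ∧ w + k - 3 ≤ D) ∨
      (k + x) * D ≤ (x + 1) ^ 2 + (k + x - 1) ∨ k + 2 * x * D ≤ (x + 1) ^ 2 + (k + x - 1) := by
  obtain rfl : D = x + 1 - w := by linarith
  rcases hc with ⟨hk8, hx6⟩ | h | h | h
  · rcases le_or_gt (k - 2) w with h1 | h1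
    · right; right; left
      have h2 : (k + x) * (x + 1 - w) ≤ (k + x) * (x + 3 - k) :=
        mul_le_mul_of_nonneg_left (by linarith) (by linarith)
      have h3 : 0 ≤ k * (k - 2) := mul_nonneg (by linarith) (by linarith)
      nlinarith
    · rcases le_or_gt (2 * w + 1) (x + 1 - w) with h2 | h2
      · rcases le_or_gt w 4 with h3 | h3
        · exact Or.inl ⟨h2, h3⟩
        · right; left
          exact ⟨h2, by omega⟩
      · right; right; left
        have hw5 : w ≤ 5 := by omega
        have hx14 : x ≤ 14 := by omega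
        interval_cases w <;> interval_cases k <;> first | (exfalso; omega) | (interval_cases x <;> first | (exfalso; omega) | norm_num)
  · subst h
    rcases le_or_gt (2 * w + 1) (6 + 1 - w) with h2 | h2
    · exact Or.inl ⟨h2, by omega⟩
    · right; right; right; omega
  · subst h
    rcases le_or_gt (2 * w + 1) (7 + 1 - w) with h2 | h2
    · exact Or.inl ⟨h2, by omega⟩
    · right; right; right; omega
  · subst h
    rcases le_or_gt (2 * w + 1) (9 + 1 - w) with h2 | h2
    · exact Or.inl ⟨h2, by omega⟩
    · right; right; right; omega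

end SIFU
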