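import Mathlib

set_option autoImplicit false

namespace SIFU

/-- `l ≥ ka + d`: the bound `f ≤ D - 1` alone is enough. -/
theorem small_big (w d ka l f Y Q D T : ℤ) (hd : 0 ≤ d) (hka : 0 ≤ ka)
    (hkd : ka + d ≤ w) (hD : 2 * w + 1 ≤ D) (hfD : f ≤ D - 1) (hl : ka + d ≤ l)
    (h2 : D * l ≤ Q + l + ka * l) (hY : Y ≤ d * f)
    (hA : w + d * w + Q ≤ T + ka + w * l + Y) : 0 ≤ T := by
  obtain ⟨G, hG⟩ : ∃ G, G = D - 1 - w - ka := ⟨_, rfl⟩
  have hG1 : d ≤ G := by linarith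
  have h3 : d * f ≤ d * (D - 1) := mul_le_mul_of_nonneg_left hfD hd
  have h4 : d * (l - d) ≤ G * (l - d) := mul_le_mul_of_nonneg_right hG1 (by linarith)
  have h5 : 0 ≤ d * (l - d - ka) := mul_nonneg hd (by linarith)
  subst hG
  linarith

/-- All cases `w ≤ 4`, `2 w + 1 ≤ D`, from the inequalities of the frame (no condition on `k`). -/
theorem small84 (w d ka l f io Y Q D T : ℤ) (hw4 : w ≤ 4) (hd : 0 ≤ d) (hka : 0 ≤ ka)
    (hl : 0 ≤ l) (hf : 0 ≤ f) (hio : 0 ≤ io)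
    (hkd : ka + d ≤ w) (hD : 2 * w + 1 ≤ D) (hfD : f ≤ D - 1)
    (h1 : io * l + f + Y ≤ Q + ka) (h2 : D * l ≤ Q + l + ka * l) (hY : Y ≤ d * f)
    (hA : w + d * w + Q ≤ T + ka + w * l + Y) : 0 ≤ T := by
  rcases le_or_gt (ka + d) l with hc | hc
  · exact small_big w d ka l f Y Q D T hd hka hkd hD hfD hc h2 hY hA
  · have hw0 : 0 ≤ w := by linarith
    have h1' : f + Y ≤ Q + ka := by
      have : 0 ≤ io * l := mul_nonneg hio hl
      linarith
    have hd4 : d ≤ 4 := by linarith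
    have hka4 : ka ≤ 4 := by linarith
    have hl3 : l ≤ 3 := by linarith
    interval_cases w <;> interval_cases d <;> (try omega) <;> interval_cases ka <;>
      (try omega) <;> interval_cases l <;> omega

end SIFU
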