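import Pool.Agent.H99.SIF.UnL
import Pool.Agent.H84.SIF.Small
import Pool.Agent.H84.SIF.Rng
import Pool.Agent.H25.SIF.Ar25

/-! Exact ranges of MP_008206_co from the frame of `frame52`. -/

set_option autoImplicit false

namespace SIFU
open Finset

/-- the inequalities of the frame at a fullest line give the bound -/
theorem row84 {P Q : Type} [Fintype P] [Fintype Q] [DecidableEq P] [DecidableEq Q]
    {A : P → Q → Bool} {k x D w : ℕ} (cP : Fintype.card P = k + x)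
    (cQ : Fintype.card Q = k + x) (hU : U A k) (hk : 2 ≤ k) (hR : ∀ r, (Nr A r).card ≤ D)
    (hC : ∀ c, (Nc A c).card ≤ D) (hDw : D + w = x + 1) (hD : 1 ≤ D) (p : P)
    (hp : (Nr A p).card = D) (hD2 : 2 * w + 1 ≤ D) (hcase : w ≤ 4 ∨ w + k ≤ D + 3) :
    (E A).card ≤ (x + 1) ^ 2 + (k + x - 1) := by
  obtain ⟨κ, d, l, f, ι, q, Y, e1, e2, e3, e4, e5, e6, e7, e8, e9⟩ :=
    frame52 cP cQ hU hR hC hDw hD p hp
  clear e7
  obtain ⟨B, hB⟩ : ∃ B, B = (x + 1) ^ 2 + (k + x - 1) := ⟨_, rfl⟩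
  obtain ⟨k1, hk1⟩ : ∃ k1, k1 + 1 = k := ⟨k - 1, by omega⟩
  have hk2 : k - 1 = k1 := by omega
  rw [← hB] at e8 e9 ⊢
  rw [hk2] at e9
  obtain ⟨T, hT⟩ : ∃ T : ℤ, T = (B : ℤ) - ((E A).card : ℤ) := ⟨_, rfl⟩
  have hs : 0 ≤ T := by
    zify at e1 e3 e4 e5 e6 e8 e9 hD2 hk1
    have i1 : (0 : ℤ) ≤ w := Int.natCast_nonneg w
    have i2 : (0 : ℤ) ≤ d := Int.natCast_nonneg d
    have i3 : (0 : ℤ) ≤ κ := Int.natCast_nonneg κ
    have i4 : (0 : ℤ) ≤ l := Int.natCast_nonneg l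
    have i5 : (0 : ℤ) ≤ f := Int.natCast_nonneg f
    have i6 : (0 : ℤ) ≤ ι := Int.natCast_nonneg ι
    have hA : (w : ℤ) + d * w + q ≤ T + κ + w * l + Y := by linarith
    rcases hcase with h | h
    · have h4 : (w : ℤ) ≤ 4 := by exact_mod_cast h
      exact small84 w d κ l f ι Y q D T h4 i2 i3 i4 i5 i6 e1 hD2 (by linarith) e4 e5 e6 hA
    · have h' : (w : ℤ) + k ≤ D + 3 := by exact_mod_cast h
      have hk3 : (k : ℤ) - 1 = k1 := by linarith
      exact ar25 (k := (k : ℤ)) i1 i2 i4 i6 i5 e1 hD2 (by linarith) e4 e5 hA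
        (by rw [hk3]; linarith)
  have h9 : ((E A).card : ℤ) ≤ (B : ℤ) := by linarith
  exact_mod_cast h9

theorem side84 {P Q : Type} [Fintype P] [Fintype Q] [DecidableEq P] [DecidableEq Q]
    {A : P → Q → Bool} {k x D : ℕ} (cP : Fintype.card P = k + x)
    (cQ : Fintype.card Q = k + x) (hU : U A k) (hk : 2 ≤ k) (hR : ∀ r, (Nr A r).card ≤ D)
    (hC : ∀ c, (Nc A c).card ≤ D) (hD : 1 ≤ D) (p : P) (hp : (Nr A p).card = D)
    (hc : (k ≤ x + 8 ∧ k ^ 2 + 2 * k * x ≤ x ^ 2 + 9 * x + 5 * k) ∨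
      (k ≤ 8 ∧ 6 ≤ x) ∨ x = 6 ∨ x = 7 ∨ x = 9) :
    (E A).card ≤ (x + 1) ^ 2 + (k + x - 1) := by
  have hDx : D ≤ x + 1 := by
    rw [← hp]
    exact deg_le cQ hU p
  obtain ⟨w, hw⟩ : ∃ w, D + w = x + 1 := ⟨x + 1 - D, by omega⟩
  obtain ⟨B, hB⟩ : ∃ B, B = (x + 1) ^ 2 + (k + x - 1) := ⟨_, rfl⟩
  have hBz : (B : ℤ) = ((x : ℤ) + 1) ^ 2 + ((k : ℤ) + x - 1) := by
    obtain ⟨m, hm⟩ : ∃ m, m + 1 = k + x := ⟨k + x - 1, by omega⟩
    have hm2 : k + x - 1 = m := by omega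
    rw [hB, hm2]
    zify at hm
    push_cast
    linarith
  have hwz : (D : ℤ) + w = x + 1 := by exact_mod_cast hw
  have hkz : (2 : ℤ) ≤ k := by exact_mod_cast hk
  have hw0 : (0 : ℤ) ≤ w := Int.natCast_nonneg w
  have hx0 : (0 : ℤ) ≤ x := Int.natCast_nonneg x
  have key : ((2 * (w : ℤ) + 1 ≤ D ∧ (w : ℤ) ≤ 4) ∨ (2 * (w : ℤ) + 1 ≤ D ∧ (w : ℤ) + k - 3 ≤ D)) ∨
      (((k : ℤ) + x) * D ≤ B ∨ (k : ℤ) + 2 * x * D ≤ B) := by
    rw [hBz]
    rcases hc with ⟨h1, h2⟩ | h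
    · have h1' : (k : ℤ) ≤ x + 8 := by exact_mod_cast h1
      have h2' : (k : ℤ) ^ 2 + 2 * k * x ≤ x ^ 2 + 9 * x + 5 * k := by exact_mod_cast h2
      rcases range25 hkz hx0 hw0 hwz h1' h2' with h3 | h3
      · exact Or.inl (Or.inr h3)
      · exact Or.inr (Or.inl h3)
    · have h' : ((k : ℤ) ≤ 8 ∧ (6 : ℤ) ≤ x) ∨ (x : ℤ) = 6 ∨ (x : ℤ) = 7 ∨ (x : ℤ) = 9 := by
        rcases h with ⟨h1, h2⟩ | h1 | h1 | h1
        · left; constructor <;> omega
        · right; left; omega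
        · right; right; left; omega
        · right; right; right; omega
      rcases range84 hkz hw0 hwz h' with h3 | h3 | h3 | h3
      · exact Or.inl (Or.inl h3)
      · exact Or.inl (Or.inr h3)
      · exact Or.inr (Or.inl h3)
      · exact Or.inr (Or.inr h3)
  rcases key with h | h | h
  · refine row84 cP cQ hU hk hR hC hw hD p hp ?_ ?_ <;> omega
  · have h1 : (E A).card ≤ (k + x) * D := by
      rw [card_E_rows, ← cP, ← smul_eq_mul, ← card_univ, ← sum_const]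
      exact sum_le_sum (fun r _ => hR r)
    have h2 : (k + x) * D ≤ B := by exact_mod_cast h
    rw [← hB]
    exact h1.trans h2
  · have h1 := deg2 cP cQ hU hR hC
    have h2 : k + 2 * x * D ≤ B := by exact_mod_cast h
    rw [← hB]
    exact h1.trans h2

/-- **Exact ranges**: the bound holds when `k ≤ x + 8` and
`k ^ 2 + 2 k x ≤ x ^ 2 + 9 x + 5 k`, when `k ≤ 8` and `6 ≤ x`, and when `x = 6, 7, 9`. -/
theorem full_range {P Q : Type} [Fintype P] [Fintype Q] [DecidableEq P] [DecidableEq Q]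
    {A : P → Q → Bool} {k x : ℕ} (cP : Fintype.card P = k + x)
    (cQ : Fintype.card Q = k + x) (hU : U A k) (hk : 2 ≤ k)
    (hc : (k ≤ x + 8 ∧ k ^ 2 + 2 * k * x ≤ x ^ 2 + 9 * x + 5 * k) ∨
      (k ≤ 8 ∧ 6 ≤ x) ∨ x = 6 ∨ x = 7 ∨ x = 9) :
    (E A).card ≤ (x + 1) ^ 2 + (k + x - 1) := by
  rcases (E A).eq_empty_or_nonempty with h | ⟨⟨r0, c0⟩, h0⟩
  · rw [h]; simp
  have h0' : A r0 c0 = true := by simpa [E] using h0
  obtain ⟨p, _, hp⟩ := exists_max_image univ (fun r => (Nr A r).card) ⟨r0, mem_univ r0⟩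
  obtain ⟨v, _, hv⟩ := exists_max_image univ (fun c => (Nc A c).card) ⟨c0, mem_univ c0⟩
  have h1 : 1 ≤ (Nr A p).card :=
    le_trans (card_pos.2 ⟨c0, mem_Nr.2 h0'⟩) (hp r0 (mem_univ _))
  have h2 : 1 ≤ (Nc A v).card :=
    le_trans (card_pos.2 ⟨r0, mem_Nc.2 h0'⟩) (hv c0 (mem_univ _))
  rcases le_total (Nc A v).card (Nr A p).card with h3 | h3
  · exact side84 cP cQ hU hk (fun r => hp r (mem_univ _))
      (fun c => (hv c (mem_univ _)).trans h3) h1 p rfl hc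
  · have hswapE : (E (fun c r => A r c)).card = (E A).card := by
      rw [card_E_rows (fun c r => A r c), card_E_cols A]
      rfl
    have h4 := side84 (A := fun c r => A r c) (D := (Nc A v).card) cQ cP (U_swap hU) hk
      (fun c => hv c (mem_univ _)) (fun r => (hp r (mem_univ _)).trans h3) h2 v rfl hc
    rw [hswapE] at h4
    exact h4

end SIFU
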