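import Mathlib

set_option autoImplicit false

namespace SIFU

/-- The integer part of the linear range. `T` is the gap, `a1`, `a2`, `b` are the three lower
bounds for `T`. -/
theorem lin_finish (k w D d h inc K F T : ℤ)
    (hwk : w ≤ k - 1) (hD : 2 * w + k ≤ D)
    (hd : 1 ≤ d) (hh : 0 ≤ h) (hinc : 0 ≤ inc) (hKd : K + d ≤ w)
    (hF0 : 0 ≤ F) (hF : F ≤ D - 1)
    (hA1 : (w - K) + w * d - K + F - (w - inc) * h ≤ T)
    (hA2 : d * (h + w + 1) + (D - 1 - 2 * w) * h - d * F ≤ T)
    (hB : d + w * d - w * h + (w + 1 - d - inc) * F - (w - d) * (k - 1) ≤ T)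
    (hK : 0 ≤ K) : 0 ≤ T := by
  by_contra hT
  push Not at hT
  obtain ⟨a, ha⟩ : ∃ a, a = D - 1 - 2 * w := ⟨_, rfl⟩
  have hak : k - 1 ≤ a := by linarith
  have haw : w ≤ a := by linarith
  have hw1 : 1 ≤ w := by linarith
  rw [← ha] at hA2
  -- first the case h ≤ d
  rcases le_or_gt h d with hhd | hhd
  · rcases le_or_gt (w - 2 * d) F with hF2 | hF2
    · have h1 : 0 ≤ w * (d - h) := mul_nonneg (by linarith) (by linarith)
      have h2 : 0 ≤ inc * h := mul_nonneg hinc hh
      nlinarith
    · have h1 : 0 ≤ a * h := mul_nonneg (by linarith) hh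
      have h2 : 0 ≤ d * (h + w + 1 - F) := mul_nonneg (by linarith) (by linarith)
      nlinarith
  · obtain ⟨e, he⟩ : ∃ e, e = h - d := ⟨_, rfl⟩
    have he1 : 1 ≤ e := by linarith
    have h2 : d * (h + w + 1) + a * h + 1 ≤ d * F := by linarith
    have h3 : a * e ≤ d * (w - 1 - h) - 1 := by
      have : d * F ≤ d * (a + 2 * w) := mul_le_mul_of_nonneg_left (by linarith) (by linarith)
      nlinarith
    have h4 : h + 2 ≤ w := by
      by_contra h5
      push Not at h5
      have h6 : 0 ≤ a * e := mul_nonneg (by linarith) (by linarith)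
      have h7 : d * (w - 1 - h) ≤ 0 := mul_nonpos_of_nonneg_of_nonpos (by linarith) (by linarith)
      linarith
    have h5 : inc * h ≤ w * e + w - 2 * d - F - 1 := by nlinarith
    have h6 : h + w + 1 ≤ F := by
      by_contra h7
      push Not at h7
      have h8 : d * F ≤ d * (h + w + 1) := mul_le_mul_of_nonneg_left (by linarith) (by linarith)
      have h9 : 0 ≤ a * h := mul_nonneg (by linarith) hh
      linarith
    have h7 : (inc * h) * F ≤ (w * e + w - 2 * d - F - 1) * F :=
      mul_le_mul_of_nonneg_right h5 hF0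
    have h8 : ((w - h) * (d - 1) + 2 * d + 1 + F) * F
        ≤ h * (w * e - d - 1 + (w - d) * (k - 1)) := by
      have h9 : d + w * d - w * h + (w + 1 - d - inc) * F - (w - d) * (k - 1) ≤ -1 := by
        linarith
      have h10 : h * (d + w * d - w * h + (w + 1 - d - inc) * F - (w - d) * (k - 1)) ≤ h * (-1) :=
        mul_le_mul_of_nonneg_left h9 hh
      subst he
      nlinarith
    have h9 : (w - h) * (d * (h + w + 1) + a * h + 1) ≤ (w - h) * (d * F) :=
      mul_le_mul_of_nonneg_left h2 (by linarith)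
    have h10 : 0 ≤ F * (F - (w - h) + 2 * d + 1) := mul_nonneg hF0 (by linarith)
    have h11 : h * ((w - d) * (k - 1)) ≤ h * ((w - d) * a) :=
      mul_le_mul_of_nonneg_left (mul_le_mul_of_nonneg_left hak (by linarith)) hh
    have h12 : h * (a * e) ≤ h * (d * (w - 1 - h) - 1) := mul_le_mul_of_nonneg_left h3 hh
    have h13 : h * (w * e) ≤ h * (a * e) :=
      mul_le_mul_of_nonneg_left (mul_le_mul_of_nonneg_right haw (by linarith)) hh
    have h14 : 0 < d * ((w - h) ^ 2 + w + h) := by
      apply mul_pos (by linarith)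
      have : 0 ≤ (w - h) ^ 2 := sq_nonneg _
      linarith
    have h15 : 0 ≤ h * (d + 1) := mul_nonneg hh (by linarith)
    subst he
    linarith [h8, h9, h10, h11, h12, h13, h14, h15]

end SIFU
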