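import Pool.Agent.H84.SIF.Fin

set_option autoImplicit false

namespace SIFU

/-- Drop-in replacement of `ar52` with the weaker condition `2 w + k ≤ D`; the third bound counts
the rows of the failing set in the copies at incompatible columns by `io * f`. -/
theorem ar84 (w d ka h f io D k L : ℤ) (hw : 0 ≤ w) (hd : 0 ≤ d) (hka : 0 ≤ ka) (hh : 0 ≤ h)
    (hf : 0 ≤ f) (hio : 0 ≤ io) (hwk : w ≤ k - 1) (hkd : ka + d ≤ w) (hD : 2 * w + k ≤ D)
    (hfD : f ≤ D - 1) (hd0 : d = 0 → f = 0)
    (ha : io * h + f - ka ≤ L) (hb : (D - 1 - ka) * h - d * f ≤ L)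
    (hc : (w + 1 - d - io) * f - (k - 1) * ka ≤ L) :
    0 ≤ (w - ka) + w * d - w * h + L := by
  rcases lt_or_ge d 1 with h1 | h1
  · have h0 : d = 0 := le_antisymm (by linarith) hd
    have hf0 : f = 0 := hd0 h0
    subst h0
    subst hf0
    have h2 : 0 ≤ (D - 1 - ka - w) * h := mul_nonneg (by linarith) hh
    nlinarith
  · refine lin_finish k w D d h io ka f _ hwk hD h1 hh hio hkd hf hfD ?_ ?_ ?_ hka
    · linarith
    · have h2 : 0 ≤ (w - d - ka) * h := mul_nonneg (by linarith) hh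
      linarith
    · have h2 : 0 ≤ (w - d - ka) * (k - 1) := mul_nonneg (by linarith) (by linarith)
      linarith

/-- Choice between the linear theorem (`2 w + k ≤ D`) and Prop A, for `8 x ≥ 25 k`. -/
theorem choice84 (x k w : ℤ) (hw : 0 ≤ w) (hwk : w ≤ k - 3) (hx : 25 * k ≤ 8 * x) :
    2 * w + k ≤ x + 1 - w ∨ (k - 2) * (k - 1 + w) ≤ (w + 1) * (x + 1 - w) := by
  rcases le_or_gt (2 * w + k) (x + 1 - w) with h | h
  · exact Or.inl h
  · right
    have h1 : x + 2 - k ≤ 3 * w := by linarith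
    have hk : 3 ≤ k := by linarith
    -- g is concave: compare with both ends
    have h2 : 0 ≤ (3 * w - (x + 2 - k)) * (k - 3 - w) := mul_nonneg (by linarith) (by linarith)
    have h3 : 0 ≤ (8 * x - 25 * k) * k := mul_nonneg (by linarith) (by linarith)
    have h4 : 0 ≤ (8 * x - 25 * k) * x := mul_nonneg (by linarith) (by linarith)
    have h5 : 0 ≤ (8 * x - 25 * k) * w := mul_nonneg (by linarith) hw
    have h6 : 0 ≤ (8 * x - 25 * k) * (k - 3 - w) := mul_nonneg (by linarith) (by linarith)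
    have h7 : 0 ≤ (3 * w - (x + 2 - k)) * k := mul_nonneg (by linarith) (by linarith)
    nlinarith [h2, h3, h4, h5, h6, h7, mul_nonneg hw (by linarith : (0:ℤ) ≤ k),
      mul_nonneg hw (by linarith : (0:ℤ) ≤ k - 3 - w)]

end SIFU
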