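import Pool.Agent.H84.SIF.UnS

/-! Unordered form of MP_008206_co: `D = w + 4`, `w = 4, 5`. -/

set_option autoImplicit false

namespace SIFU
open Finset

theorem tau4_row {w b o D : ℤ} (hw : w = 4 ∨ w = 5) (hD : D = w + 4) (hb : 0 ≤ b) (ho : 1 ≤ o)
    (ho2 : o ≤ w + 1) (hbo : b + o ≤ D) :
    4 * w * b ≤ 12 * (o - 1) + (w + 3) * ((w + 1 - o) * b) := by
  subst hD
  rcases hw with rfl | rfl
  · have h : o ≤ 5 := by linarith
    interval_cases o <;> linarith
  · have h : o ≤ 6 := by linarith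
    interval_cases o <;> linarith

theorem boundU {w d ka l f Y Q D T : ℤ} (hd : 0 ≤ d) (hl : 0 ≤ l) (hkd : ka + d ≤ w)
    (h1 : f + Y ≤ Q + ka) (h2 : D * l ≤ Q + l + ka * l) (hY : Y ≤ d * f)
    (hA : w + d * w + Q ≤ T + ka + w * l + Y) (hka : 0 ≤ ka) :
    d ^ 2 * (w + 2) + d - l * (w + d * (w - 1) - (D - w - 1)) ≤ (1 + d) * T := by
  have m3 : 0 ≤ (w - d - ka) * (1 + 2 * d + l) := mul_nonneg (by linarith) (by linarith)
  have m4 : (1 + d) * (w + d * w + Q) ≤ (1 + d) * (T + ka + w * l + Y) :=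
    mul_le_mul_of_nonneg_left hA (by linarith)
  have m5 : d * (f + Y) ≤ d * (Q + ka) := mul_le_mul_of_nonneg_left h1 hd
  linarith

theorem tau4_fin1 {w D x j H β S : ℤ} (hw : w = 4 ∨ w = 5) (hD : D = w + 4) (hx : D + w = x + 1)
    (hj : 0 ≤ j) (hH : 2 * D ≤ H) (hH2 : D * (w - j) ≤ H)
    (hβ : β = w * D - (w + 1) * (j + 1) - H) (hβ0 : 0 ≤ β) (hS : S ≤ D * β)
    (h : 4 * w * (D * (x - j) - H) ≤ 12 * (w * D + w * (x - j)) + (w + 3) * S) : False := by
  have hx' : x = 2 * w + 3 := by linarith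
  subst hx' hD hβ
  rcases hw with rfl | rfl
  · have : j ≤ 2 := by linarith
    interval_cases j <;> linarith
  · have : j ≤ 3 := by linarith
    interval_cases j <;> linarith

theorem tau4_fin2 {w D x j H β S : ℤ} (hw : w = 4 ∨ w = 5) (hD : D = w + 4) (hx : D + w = x + 1)
    (hj : w - 1 ≤ j) (hj2 : j ≤ 2 * w - 5) (hH : D ≤ H)
    (hβ : β = w * D - (w + 1) * (j + 1) - H) (hβ0 : 0 ≤ β)
    (hS : S ≤ D * (2 * w - 5 - j) + (H - D) * β)
    (h : 4 * w * (D * (x - j) - H) ≤ 12 * (w * D + w * (x - j)) + (w + 3) * S) : False := by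
  have hx' : x = 2 * w + 3 := by linarith
  subst hx' hD hβ
  rcases hw with rfl | rfl
  · have h1 : j = 3 := by linarith
    subst h1
    have h2 : 8 ≤ H := by linarith
    have h3 : H ≤ 12 := by linarith
    interval_cases H <;> linarith
  · have h1 : 4 ≤ j := by linarith
    have h1' : j ≤ 5 := by linarith
    have h2 : 9 ≤ H := by linarith
    have h3 : H ≤ 15 := by linarith
    interval_cases j <;> interval_cases H <;> linarith

theorem tau4 {P Q : Type} [Fintype P] [Fintype Q] [DecidableEq P] [DecidableEq Q]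
    {A : P → Q → Bool} {k x D w : ℕ} {p : P} {R : Q → Finset P} {C : Q → Finset Q}
    (h : Ctx A k x p R C) (hk : 2 ≤ k) (hp : (Nr A p).card = D) (hDw : D + w = x + 1)
    (hD4 : D = w + 4) (hw : w = 4 ∨ w = 5) (hR : ∀ r, (Nr A r).card ≤ D)
    (hC : ∀ c, (Nc A c).card ≤ D) : (E A).card ≤ (x + 1) ^ 2 + (k + x - 1) := by
  by_contra hcon
  have hkx : 1 ≤ k + x := by omega
  obtain ⟨B, hB⟩ : ∃ B, B = (x + 1) ^ 2 + (k + x - 1) := ⟨_, rfl⟩
  have hBz : (B : ℤ) = ((x : ℤ) + 1) ^ 2 + ((k : ℤ) + x - 1) := by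
    obtain ⟨m, hm⟩ : ∃ m, m + 1 = k + x := ⟨k + x - 1, by omega⟩
    have hm2 : k + x - 1 = m := by omega
    rw [hB, hm2]
    zify at hm
    push_cast
    linarith
  rw [← hB] at hcon
  have hE : (B : ℤ) + 1 ≤ (E A).card := by
    have : B + 1 ≤ (E A).card := by omega
    exact_mod_cast this
  have hne : (Nr A p).Nonempty := by rw [← card_pos, hp]; omega
  obtain ⟨c, hc, hcmin⟩ := exists_min_image (Nr A p) (fun u => (Ww A R u \ I0 A p R).card) hne
  set H : ℤ := ∑ u ∈ Nr A p, ((Ww A R u \ I0 A p R).card : ℤ) with hHdef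
  set j : ℤ := ((I0 A p R).card : ℤ) with hj
  set β : ℤ := w * D - (w + 1) * (j + 1) - H with hβ
  have hH0 : 0 ≤ H := sum_nonneg (fun u _ => Int.natCast_nonneg _)
  have hw45 : (w : ℤ) = 4 ∨ (w : ℤ) = 5 := by
    rcases hw with h1 | h1
    · left; exact_mod_cast h1
    · right; exact_mod_cast h1
  have hD4z : (D : ℤ) = w + 4 := by exact_mod_cast hD4
  have hDwz : (D : ℤ) + w = x + 1 := by exact_mod_cast hDw
  -- (i)
  have hI : ∀ u ∈ Nr A p,
      ∑ r ∈ (univ \ R u) \ I0 A p R, ((w : ℤ) + 1 - (Oo A p r).card) ≤ β := by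
    intro u hu
    have h1 := h.exactT hp hDw hu
    have h2 : (0 : ℤ) ≤ ∑ r ∈ I0 A p R, (((Hs A p R r).card : ℤ) - (Oo A p r).card) := by
      apply sum_nonneg
      intro r hr
      have := h.out_le0 hp hR hr
      zify at this
      linarith
    have h3 : ∑ v ∈ Ac A p C u, ((R u ∩ Nc A v).card : ℤ) ≤ w * D := by
      have h4 : ∑ v ∈ Ac A p C u, (R u ∩ Nc A v).card ≤ w * D := by
        calc ∑ v ∈ Ac A p C u, (R u ∩ Nc A v).card ≤ ∑ v ∈ Ac A p C u, D :=
              sum_le_sum (fun v _ => (card_le_card inter_subset_right).trans (hC v))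
          _ = w * D := by rw [sum_const, h.cardAc hp hDw hu, smul_eq_mul]
      exact_mod_cast h4
    rw [← hHdef, ← hj, ← hBz] at h1
    rw [hβ]
    linarith
  have hsl0 : ∀ u ∈ Nr A p,
      0 ≤ ∑ r ∈ (univ \ R u) \ I0 A p R, ((w : ℤ) + 1 - (Oo A p r).card) := by
    intro u hu
    apply sum_nonneg
    intro r hr
    rw [mem_sdiff, mem_sdiff] at hr
    have h4 := h.out_le hp hDw (by rintro rfl; exact hr.1.2 (h.pR u hu)) hr.2
    zify at h4
    linarith
  have hβ0 : 0 ≤ β := (hsl0 c hc).trans (hI c hc)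
  -- live rows
  set L := (univ \ I0 A p R).erase p with hL
  have hLmem : ∀ r, r ∈ L ↔ r ≠ p ∧ r ∉ I0 A p R := by
    intro r
    rw [hL, mem_erase, mem_sdiff]
    simp
  have ho1 : ∀ r ∈ L, 1 ≤ (Oo A p r).card := by
    intro r hr
    rw [hLmem] at hr
    have h1 : (G A p R r).Nonempty := by
      rw [nonempty_iff_ne_empty]
      intro h2
      apply hr.2
      unfold I0
      rw [mem_filter]
      exact ⟨mem_univ _, hr.1, h2⟩
    obtain ⟨u, hu⟩ := h1
    simp only [G, mem_filter] at hu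
    have h2 := h.outcard hu.1 hu.2 hr.1
    unfold Oo
    omega
  have ho2 : ∀ r ∈ L, (Oo A p r).card ≤ w + 1 := by
    intro r hr
    rw [hLmem] at hr
    exact h.out_le hp hDw hr.1 hr.2
  have hrow : ∀ r ∈ L, 4 * (w : ℤ) * ((Nr A p ∩ Nr A r).card : ℤ) ≤
      12 * (((Oo A p r).card : ℤ) - 1) +
        ((w : ℤ) + 3) * (((w : ℤ) + 1 - (Oo A p r).card) * ((Nr A p ∩ Nr A r).card : ℤ)) := by
    intro r hr
    have h1 := ho1 r hr
    have h2 := ho2 r hr
    have h3 := Ctx.degsplit A p r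
    have h4 := hR r
    have h5 : (Nr A p ∩ Nr A r).card + (Oo A p r).card ≤ D := by
      unfold Oo
      omega
    zify at h1 h2 h5
    exact tau4_row (D := (D : ℤ)) hw45 hD4z (Int.natCast_nonneg _) h1 h2 h5
  have hsum := sum_le_sum hrow
  rw [sum_add_distrib, ← mul_sum, ← mul_sum, ← mul_sum] at hsum
  -- summed over the columns
  obtain ⟨S, hS⟩ : ∃ S : ℤ, S = ∑ r ∈ L, (((w : ℤ) + 1 - (Oo A p r).card) *
      ((Nr A p ∩ Nr A r).card : ℤ)) := ⟨_, rfl⟩
  have hS2 : ∀ F : Q → ℤ, (∀ u ∈ Nr A p,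
      ∑ r ∈ (univ \ R u) \ I0 A p R, ((w : ℤ) + 1 - (Oo A p r).card) ≤ F u) →
      S ≤ ∑ u ∈ Nr A p, F u := by
    intro F hF
    have h1 : ∀ r ∈ L, (((w : ℤ) + 1 - (Oo A p r).card) * ((Nr A p ∩ Nr A r).card : ℤ)) =
        ∑ u ∈ Nr A p, (if A r u = true then ((w : ℤ) + 1 - (Oo A p r).card) else 0) := by
      intro r _
      have h2 : Nr A p ∩ Nr A r = (Nr A p).filter (fun u => A r u = true) := by
        ext u
        rw [mem_inter, mem_filter, mem_Nr (r := r)]
      rw [h2, ← sum_filter, sum_const, nsmul_eq_mul, mul_comm]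
    rw [hS, sum_congr rfl h1, sum_comm]
    apply sum_le_sum
    intro u hu
    refine le_trans ?_ (hF u hu)
    rw [← sum_filter]
    apply sum_le_sum_of_subset_of_nonneg
    · intro r hr
      rw [mem_filter, hLmem] at hr
      rw [mem_sdiff, mem_sdiff]
      refine ⟨⟨mem_univ _, ?_⟩, hr.1.2⟩
      intro h3
      have := h.zero hu h3 hr.1.1
      rw [hr.2] at this
      simp at this
    · intro r hr _
      rw [mem_sdiff, mem_sdiff] at hr
      have h4 := h.out_le hp hDw (by rintro rfl; exact hr.1.2 (h.pR u hu)) hr.2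
      zify at h4
      linarith
  rw [← hS] at hsum
  -- (ii)
  have hpI : p ∉ I0 A p R := by
    unfold I0
    rw [mem_filter]
    rintro ⟨_, h1, _⟩
    exact h1 rfl
  have hII : ∑ r ∈ L, ((Nr A p ∩ Nr A r).card : ℤ) = D * (x - j) - H := by
    have h1 := card_comm2 (univ : Finset P) (Nr A p) (fun r u => A r u = true)
    have h2 : ∀ r, Nr A p ∩ Nr A r = (Nr A p).filter (fun u => A r u = true) := by
      intro r
      ext u
      rw [mem_inter, mem_filter, mem_Nr (r := r)]
    have h3 : ∑ r, (Nr A p ∩ Nr A r).card = ∑ u ∈ Nr A p, (Nc A u).card := by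
      simp only [h2]
      exact h1
    have h4 : ∑ u ∈ Nr A p, (Nc A u).card + ∑ u ∈ Nr A p, (Ww A R u).card = D * (x + 1) := by
      rw [← sum_add_distrib, sum_congr rfl (fun u hu => h.cardW hu), sum_const, hp, smul_eq_mul]
    have h5 : ∑ u ∈ Nr A p, (Ww A R u).card = ∑ r, (Hs A p R r).card := by
      have h6 := card_comm2 (univ : Finset P) (Nr A p) (fun r c => A r c = false ∧ r ∉ R c)
      exact h6.symm
    have h6 : ∑ r, (Hs A p R r).card = ∑ u ∈ Nr A p, (Ww A R u \ I0 A p R).card +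
        ∑ r ∈ I0 A p R, (Hs A p R r).card := by
      rw [← Ctx.sumHs, sum_sdiff (subset_univ _)]
    have h7 : ∑ r ∈ I0 A p R, (Nr A p ∩ Nr A r).card + ∑ r ∈ I0 A p R, (Hs A p R r).card =
        D * (I0 A p R).card := by
      rw [← sum_add_distrib]
      have h8 : ∀ r ∈ I0 A p R, (Nr A p ∩ Nr A r).card + (Hs A p R r).card = D := by
        intro r hr
        unfold I0 at hr
        rw [mem_filter] at hr
        have h9 := h.part hr.2.1
        rw [hr.2.2, card_empty, hp] at h9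
        omega
      rw [sum_congr rfl h8, sum_const, smul_eq_mul, mul_comm]
    have h8 : ∑ r, (Nr A p ∩ Nr A r).card = D + ∑ r ∈ L, (Nr A p ∩ Nr A r).card +
        ∑ r ∈ I0 A p R, (Nr A p ∩ Nr A r).card := by
      rw [← sum_sdiff (subset_univ (I0 A p R)),
        ← add_sum_erase (univ \ I0 A p R) _ (mem_sdiff.2 ⟨mem_univ p, hpI⟩), inter_self, hp]
    rw [h3] at h8
    rw [h5, h6] at h4
    zify at h4 h7 h8
    rw [← hHdef] at h4
    rw [← hj] at h7
    linarith
  -- (iii)
  have hIII : ∑ r ∈ L, (((Oo A p r).card : ℤ) - 1) ≤ w * D + w * (x - j) := by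
    have hpR := h.pR c hc
    have hIR : I0 A p R ⊆ univ \ R c := by
      intro r hr
      exact mem_sdiff.2 ⟨mem_univ _, Ctx.I0_notR hc hr⟩
    have h1 : L = (R c).erase p ∪ ((univ \ R c) \ I0 A p R) := by
      ext r
      rw [hLmem, mem_union, mem_erase, mem_sdiff, mem_sdiff]
      constructor
      · rintro ⟨h2, h3⟩
        by_cases h4 : r ∈ R c
        · left; exact ⟨h2, h4⟩
        · right; exact ⟨⟨mem_univ _, h4⟩, h3⟩
      · rintro (⟨h2, h3⟩ | ⟨⟨_, h3⟩, h4⟩)
        · exact ⟨h2, fun h5 => Ctx.I0_notR hc h5 h3⟩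
        · refine ⟨?_, h4⟩
          rintro rfl
          exact h3 hpR
    have h2 : Disjoint ((R c).erase p) ((univ \ R c) \ I0 A p R) := by
      rw [disjoint_left]
      intro r hr hr2
      rw [mem_sdiff, mem_sdiff] at hr2
      exact hr2.1.2 (mem_of_mem_erase hr)
    have h3 : ((univ \ R c) \ I0 A p R).card + (I0 A p R).card = x := by
      have h4 := card_sdiff_add_card_eq_card hIR
      have h5 := card_sdiff_add_card_eq_card (subset_univ (R c))
      rw [card_univ, h.cP, (h.cp c hc).cR] at h5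
      omega
    have h4 : ∑ r ∈ (univ \ R c) \ I0 A p R, (((Oo A p r).card : ℤ) - 1) ≤ w * (x - j) := by
      have h5 : ∀ r ∈ (univ \ R c) \ I0 A p R, (((Oo A p r).card : ℤ) - 1) ≤ w := by
        intro r hr
        have h6 : r ∈ L := by rw [h1]; exact mem_union_right _ hr
        have h7 := ho2 r h6
        zify at h7
        linarith
      have h6 := sum_le_sum h5
      rw [sum_const, nsmul_eq_mul] at h6
      have h7 : (((univ \ R c) \ I0 A p R).card : ℤ) = x - j := by
        zify at h3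
        rw [← hj] at h3
        linarith
      rw [h7] at h6
      linarith
    have h5 : ∑ r ∈ (R c).erase p, (((Oo A p r).card : ℤ) - 1) ≤ w * D := by
      have h6 := h.ORc hc
      have h7 : ∑ r ∈ R c, (Oo A p r).card = ∑ r ∈ (R c).erase p, (Oo A p r).card := by
        rw [← add_sum_erase _ _ hpR, Ctx.Oop, card_empty, zero_add]
      have h8 : ((R c).erase p).card + 1 = k := by
        rw [card_erase_add_one hpR, (h.cp c hc).cR]
      have h9 : ∑ v ∈ Ac A p C c, (R c ∩ Nc A v).card ≤ w * D := by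
        calc ∑ v ∈ Ac A p C c, (R c ∩ Nc A v).card ≤ ∑ v ∈ Ac A p C c, D :=
              sum_le_sum (fun v _ => (card_le_card inter_subset_right).trans (hC v))
          _ = w * D := by rw [sum_const, h.cardAc hp hDw hc, smul_eq_mul]
      rw [h7] at h6
      rw [sum_sub_distrib, sum_const, nsmul_eq_mul, mul_one]
      zify at h6 h8 h9
      linarith
    rw [h1, sum_union h2]
    linarith
  -- every column
  have haj : ∀ u ∈ Nr A p, (w : ℤ) - j ≤ ((Ww A R u \ I0 A p R).card : ℤ) := by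
    intro u hu
    have h2 := h.cardW hu
    have h3 := hC u
    have h4 := card_inter_add_card_sdiff (Ww A R u) (I0 A p R)
    have h5 : (Ww A R u ∩ I0 A p R).card ≤ (I0 A p R).card := card_le_card inter_subset_right
    zify at h2 h3 h4 h5 hDw
    rw [← hj] at h5
    linarith
  have hH2 : (D : ℤ) * (w - j) ≤ H := by
    have h2 := sum_le_sum haj
    rw [sum_const, hp, nsmul_eq_mul] at h2
    exact h2
  rw [hII] at hsum
  have hj0 : 0 ≤ j := Int.natCast_nonneg _
  have hfin : 4 * (w : ℤ) * (D * (x - j) - H) ≤ 12 * (w * D + w * (x - j)) + (w + 3) * S := by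
    linarith
  -- the three cases
  have hgood : ∀ u ∈ Nr A p, (∀ v ∈ Nr A p, (Ww A R u \ I0 A p R).card ≤
      (Ww A R v \ I0 A p R).card) → (Ww A R u \ I0 A p R).card ≤ 1 →
      (Ww A R u \ I0 A p R).card = 1 ∧
      ∑ r ∈ (univ \ R u) \ I0 A p R, ((w : ℤ) + 1 - (Oo A p r).card) ≤ 2 * w - 5 - j := by
    intro u hu hmin hle
    obtain ⟨κ, d, l, f, ι, q, Y, e0, e1, e2, e3, e4, e5, e6, e8, e9, e10⟩ :=
      frame85 h hR hC hDw (by omega) hp hu hmin
    rw [← hB] at e8
    rw [← hBz, ← hj] at e10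
    rw [← e0] at hle ⊢
    obtain ⟨T, hT⟩ : ∃ T : ℤ, T = (B : ℤ) - ((E A).card : ℤ) := ⟨_, rfl⟩
    zify at e1 e3 e4 e5 e6 e8 hle
    have i2 : (0 : ℤ) ≤ d := Int.natCast_nonneg d
    have i3 : (0 : ℤ) ≤ κ := Int.natCast_nonneg κ
    have i4 : (0 : ℤ) ≤ l := Int.natCast_nonneg l
    have i6 : (0 : ℤ) ≤ ι := Int.natCast_nonneg ι
    have i7 : (0 : ℤ) ≤ (ι : ℤ) * l := mul_nonneg i6 i4
    have hU := boundU (w := w) (d := d) (ka := κ) (l := l) (f := f) (Y := Y) (Q := q) (D := D)
      (T := T) i2 i4 e1 (by linarith) e5 e6 (by linarith) i3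
    have hT1 : T ≤ -1 := by linarith
    have hT2 : (1 + (d : ℤ)) * T ≤ (1 + d) * (-1) :=
      mul_le_mul_of_nonneg_left hT1 (by linarith)
    have hl1 : (l : ℤ) = 1 := by
      rcases (show (l : ℤ) = 0 ∨ (l : ℤ) = 1 by omega) with h1 | h1
      · exfalso
        rw [h1] at hU
        have h2 : (0 : ℤ) ≤ (d : ℤ) ^ 2 * (w + 2) := by positivity
        linarith
      · exact h1
    refine ⟨by exact_mod_cast hl1, ?_⟩
    have hd00 : d = 0 := by
      by_contra hdne
      have hd1 : (1 : ℤ) ≤ d := by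
        have : 1 ≤ d := by omega
        exact_mod_cast this
      rw [hl1, hD4z] at hU
      have h3 : 0 ≤ ((d : ℤ) - 1) * (d - 1) := mul_nonneg (by linarith) (by linarith)
      have h4 : 0 ≤ ((d : ℤ) - 1) * d := mul_nonneg (by linarith) (by linarith)
      rcases hw45 with h5 | h5 <;> rw [h5] at hU <;> linarith
    have h10 := e10 hd00
    rw [hl1] at h10 e5
    have h11 : (κ : ℤ) ≤ w := by linarith
    linarith
  rcases Nat.lt_or_ge 1 (Ww A R c \ I0 A p R).card with hl2 | hl1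
  · -- at least two
    have h1 : ∀ u ∈ Nr A p, (2 : ℤ) ≤ ((Ww A R u \ I0 A p R).card : ℤ) := by
      intro u hu
      have h2 := hcmin u hu
      have h3 : 2 ≤ (Ww A R u \ I0 A p R).card := by
        beta_reduce at h2
        omega
      exact_mod_cast h3
    have h2 := sum_le_sum h1
    rw [sum_const, hp, nsmul_eq_mul] at h2
    have h3 := hS2 (fun _ => β) hI
    rw [sum_const, hp, nsmul_eq_mul] at h3
    exact tau4_fin1 (w := w) (D := D) (x := x) (j := j) (H := H) (β := β) (S := S) hw45 hD4z hDwz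
      hj0 (by linarith) hH2 hβ hβ0 h3 hfin
  · have h1 := hgood c hc hcmin hl1
    have hall : ∀ u ∈ Nr A p, (1 : ℤ) ≤ ((Ww A R u \ I0 A p R).card : ℤ) := by
      intro u hu
      have h2 := hcmin u hu
      beta_reduce at h2
      rw [h1.1] at h2
      exact_mod_cast h2
    have hs0 : 0 ≤ 2 * (w : ℤ) - 5 - j := (hsl0 c hc).trans h1.2
    have h2 : S ≤ ∑ u ∈ Nr A p, ((2 * (w : ℤ) - 5 - j) +
        (((Ww A R u \ I0 A p R).card : ℤ) - 1) * β) := by
      apply hS2
      intro u hu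
      rcases Nat.lt_or_ge 1 (Ww A R u \ I0 A p R).card with h3 | h3
      · have h4 : (2 : ℤ) ≤ ((Ww A R u \ I0 A p R).card : ℤ) := by exact_mod_cast h3
        have h5 : 0 ≤ (((Ww A R u \ I0 A p R).card : ℤ) - 2) * β :=
          mul_nonneg (by linarith) hβ0
        have h6 := hI u hu
        linarith
      · have h4 : (Ww A R u \ I0 A p R).card = 1 := by
          have := hall u hu
          have h5 : 1 ≤ (Ww A R u \ I0 A p R).card := by exact_mod_cast this
          omega
        have h5 := hgood u hu (fun v hv => by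
          rw [h4]
          have := hall v hv
          exact_mod_cast this) h3
        rw [h4]
        push_cast
        linarith [h5.2]
    rw [sum_add_distrib, sum_const, hp, nsmul_eq_mul, ← sum_mul, sum_sub_distrib, ← hHdef,
      sum_const, hp, nsmul_eq_mul, mul_one] at h2
    have h3 := sum_le_sum hall
    rw [sum_const, hp, nsmul_eq_mul, mul_one] at h3
    have h4 := haj c hc
    rw [h1.1] at h4
    push_cast at h4
    exact tau4_fin2 (w := w) (D := D) (x := x) (j := j) (H := H) (β := β) (S := S) hw45 hD4z hDwz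
      (by linarith) (by linarith) h3 hβ hβ0 h2 hfin

end SIFU
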