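import Pool.Agent.H20.SIF.Full23
import Pool.Agent.H84.SIF.Tau4
import Pool.Agent.H84.SIF.Rng

/-! Exact ranges of MP_008206_co: all `n ≤ k + 13`. -/

set_option autoImplicit false

namespace SIFU
open Finset

theorem row24 {P Q : Type} [Fintype P] [Fintype Q] [DecidableEq P] [DecidableEq Q]
    {A : P → Q → Bool} {k x D w : ℕ} (cP : Fintype.card P = k + x)
    (cQ : Fintype.card Q = k + x) (hU : U A k) (hk : 2 ≤ k) (hR : ∀ r, (Nr A r).card ≤ D)
    (hC : ∀ c, (Nc A c).card ≤ D) (hDw : D + w = x + 1) (hD : 1 ≤ D) (p : P)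
    (hp : (Nr A p).card = D) (hcase : x = 11 ∨ x = 13) :
    (E A).card ≤ (x + 1) ^ 2 + (k + x - 1) := by
  rcases Nat.lt_or_ge (w + 2) D with h1 | h1
  · by_cases h2 : D = w + 4
    · obtain ⟨R, C, h⟩ := Ctx_exists cP cQ hU p
      exact tau4 h hk hp hDw h2 (by omega) hR hC
    · refine row84 cP cQ hU hk hR hC hDw hD p hp ?_ (Or.inl ?_) <;> omega
  · have h2 := deg2 cP cQ hU hR hC
    have h3 : 2 * D ≤ x + 3 := by omega
    have h4 : x * (2 * D) ≤ x * (x + 3) := Nat.mul_le_mul_left _ h3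
    have h5 : 2 * x * D = x * (2 * D) := by ring
    rw [h5] at h2
    rcases hcase with hx | hx
    · subst hx
      omega
    · subst hx
      omega

theorem extra24 {P Q : Type} [Fintype P] [Fintype Q] [DecidableEq P]
    [DecidableEq Q] {A : P → Q → Bool} {k x : ℕ} (cP : Fintype.card P = k + x)
    (cQ : Fintype.card Q = k + x) (hU : U A k) (hk : 2 ≤ k)
    (hcase : x = 11 ∨ x = 13) :
    (E A).card ≤ (x + 1) ^ 2 + (k + x - 1) := by
  rcases (E A).eq_empty_or_nonempty with h | ⟨⟨r0, c0⟩, h0⟩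
  · rw [h]; simp
  have h0' : A r0 c0 = true := by simpa [E] using h0
  obtain ⟨p, _, hp⟩ := exists_max_image univ (fun r => (Nr A r).card) ⟨r0, mem_univ r0⟩
  obtain ⟨v, _, hv⟩ := exists_max_image univ (fun c => (Nc A c).card) ⟨c0, mem_univ c0⟩
  have h1 : 1 ≤ (Nr A p).card :=
    le_trans (card_pos.2 ⟨c0, mem_Nr.2 h0'⟩) (hp r0 (mem_univ _))
  have h2 : 1 ≤ (Nc A v).card :=
    le_trans (card_pos.2 ⟨r0, mem_Nc.2 h0'⟩) (hv c0 (mem_univ _))
  rcases le_total (Nc A v).card (Nr A p).card with h3 | h3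
  · have hDx : (Nr A p).card ≤ x + 1 := deg_le cQ hU p
    obtain ⟨w, hw⟩ : ∃ w, (Nr A p).card + w = x + 1 := ⟨x + 1 - (Nr A p).card, by omega⟩
    exact row24 cP cQ hU hk (fun r => hp r (mem_univ _))
      (fun c => (hv c (mem_univ _)).trans h3) hw h1 p rfl hcase
  · have hswapE : (E (fun c r => A r c)).card = (E A).card := by
      rw [card_E_rows (fun c r => A r c), card_E_cols A]
      rfl
    have hDx : (Nc A v).card ≤ x + 1 := deg_le (A := fun c r => A r c) cP (U_swap hU) v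
    obtain ⟨w, hw⟩ : ∃ w, (Nc A v).card + w = x + 1 := ⟨x + 1 - (Nc A v).card, by omega⟩
    have h4 := row24 (A := fun c r => A r c) (D := (Nc A v).card) cQ cP (U_swap hU) hk
      (fun c => hv c (mem_univ _)) (fun r => (hp r (mem_univ _)).trans h3) hw h2 v rfl hcase
    rw [hswapE] at h4
    exact h4

/-- **Exact ranges**: the bound holds when `k ≤ x + 8` and
`k ^ 2 + 2 k x ≤ x ^ 2 + 9 x + 5 k`, when `k ≤ 10` and `6 ≤ x`, and when `6 ≤ x ≤ 13`. -/
theorem full24 {P Q : Type} [Fintype P] [Fintype Q] [DecidableEq P]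
    [DecidableEq Q] {A : P → Q → Bool} {k x : ℕ} (cP : Fintype.card P = k + x)
    (cQ : Fintype.card Q = k + x) (hU : U A k) (hk : 2 ≤ k)
    (hc : (k ≤ x + 8 ∧ k ^ 2 + 2 * k * x ≤ x ^ 2 + 9 * x + 5 * k) ∨
      (k ≤ 10 ∧ 6 ≤ x) ∨ (6 ≤ x ∧ x ≤ 13)) :
    (E A).card ≤ (x + 1) ^ 2 + (k + x - 1) := by
  rcases hc with h | h | ⟨h1, h2⟩
  · exact full23 cP cQ hU hk (Or.inl h)
  · exact full23 cP cQ hU hk (Or.inr (Or.inl h))
  · have h5 : (x = 6 ∨ x = 7 ∨ x = 8 ∨ x = 9 ∨ x = 10 ∨ x = 12) ∨ (x = 11 ∨ x = 13) := by omega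
    rcases h5 with h5 | h5
    · exact full23 cP cQ hU hk (Or.inr (Or.inr h5))
    · exact extra24 cP cQ hU hk h5

end SIFU
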