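import Mathlib

/-! Arithmetic: the frame inequalities give a gap of at most `(x - 3) ^ 2 / 24`. -/

set_option autoImplicit false

namespace SIFU

theorem poly84 {b d e : ℤ} (hb : 1 ≤ b) (hd : 1 ≤ d) (he : 0 ≤ e) (heb : e ≤ b + 1) :
    0 ≤ (d + b + 1) * (3 * b - 2 * d) ^ 2 +
      e * (16 * d ^ 2 + 28 * b * d - 12 * b ^ 2 + 64 * d + 12 * b + 24) +
      e ^ 2 * (4 * b + 4 - 20 * d) := by
  obtain ⟨B, rfl⟩ : ∃ B, b = B - 1 := ⟨b + 1, by ring⟩
  have hB : 0 < B := by linarith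
  have hBe : 0 ≤ B - e := by linarith
  obtain ⟨P, hP⟩ : ∃ P, P = (d + (B - 1) + 1) * (3 * (B - 1) - 2 * d) ^ 2 +
      e * (16 * d ^ 2 + 28 * (B - 1) * d - 12 * (B - 1) ^ 2 + 64 * d + 12 * (B - 1) + 24) +
      e ^ 2 * (4 * (B - 1) + 4 - 20 * d) := ⟨_, rfl⟩
  rw [← hP]
  have hPB : 0 ≤ e * ((d + B) * (B ^ 2 + 4 * B * d + 4 * d ^ 2 + 18 * B + 12 * d + 9)) := by
    positivity
  have hBP : 0 ≤ B * P := by
    rcases le_or_gt B (5 * d) with h | h
    · have h1 : 0 ≤ (B - e) * ((d + B) * (3 * (B - 1) - 2 * d) ^ 2) := by positivity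
      have h2 : 0 ≤ e * (B - e) * B * (20 * d - 4 * B) := by
        have h3 : 0 ≤ 20 * d - 4 * B := by linarith
        positivity
      have h4 : B * P = (B - e) * ((d + B) * (3 * (B - 1) - 2 * d) ^ 2) +
          e * ((d + B) * (B ^ 2 + 4 * B * d + 4 * d ^ 2 + 18 * B + 12 * d + 9)) +
          e * (B - e) * B * (20 * d - 4 * B) := by
        rw [hP]; ring
      linarith
    · have h5 : 2 * B ≤ 3 * (B - 1) - 2 * d := by linarith
      have h6 : (2 * B) ^ 2 ≤ (3 * (B - 1) - 2 * d) ^ 2 := by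
        apply pow_le_pow_left₀ (by linarith) h5
      have h7 : (d + B) * (2 * B) ^ 2 ≤ (d + B) * (3 * (B - 1) - 2 * d) ^ 2 :=
        mul_le_mul_of_nonneg_left h6 (by linarith)
      have h8 : 0 ≤ (d + B) * (3 * (B - 1) - 2 * d) ^ 2 - (4 * B - 20 * d) * B ^ 2 := by
        have h9 : 0 ≤ 24 * d * B ^ 2 := by positivity
        linarith
      have h10 : 0 ≤ (B - e) * ((d + B) * (3 * (B - 1) - 2 * d) ^ 2 - (4 * B - 20 * d) * B ^ 2) :=
        mul_nonneg hBe h8
      have h11 : 0 ≤ (4 * B - 20 * d) * B * (B - e) ^ 2 := by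
        have h3 : 0 ≤ 4 * B - 20 * d := by linarith
        positivity
      have h4 : B * P = (B - e) * ((d + B) * (3 * (B - 1) - 2 * d) ^ 2 -
            (4 * B - 20 * d) * B ^ 2) +
          e * ((d + B) * (B ^ 2 + 4 * B * d + 4 * d ^ 2 + 18 * B + 12 * d + 9)) +
          (4 * B - 20 * d) * B * (B - e) ^ 2 := by
        rw [hP]; ring
      linarith
  exact nonneg_of_mul_nonneg_right hBP hB

theorem gap84 {w d ka l f Y Q D T : ℤ} (hd : 0 ≤ d) (hka : 0 ≤ ka) (hl : 0 ≤ l)
    (hkd : ka + d ≤ w) (hD : w + 3 ≤ D) (hfD : f ≤ D - 1)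
    (h1 : f + Y ≤ Q + ka) (h2 : D * l ≤ Q + l + ka * l) (hY : Y ≤ d * f)
    (hA : w + d * w + Q ≤ T + ka + w * l + Y)
    (hC : (D - w - 1) * l ≤ T + w * (D - w - 2)) : 0 ≤ 24 * T + (D + w - 4) ^ 2 := by
  obtain ⟨g, rfl⟩ : ∃ g, D = g + w + 1 := ⟨D - w - 1, by ring⟩
  have hw : 0 ≤ w := by linarith
  have hg : 2 ≤ g := by linarith
  have m1 : 0 ≤ (w - d - ka) * (1 + l) := mul_nonneg (by linarith) (by linarith)
  have m2 : d * f ≤ d * (g + w + 1 - 1) := mul_le_mul_of_nonneg_left hfD hd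
  have hK : d - d * g + (g - w + d) * l ≤ T := by linarith
  have hC' : g * l - w * (g - 1) ≤ T := by linarith
  have hU : d ^ 2 * (w + 2) + d - l * (w + d * (w - 1) - g) ≤ (1 + d) * T := by
    have m3 : 0 ≤ (w - d - ka) * (1 + 2 * d + l) := mul_nonneg (by linarith) (by linarith)
    have m4 : (1 + d) * (w + d * w + Q) ≤ (1 + d) * (T + ka + w * l + Y) :=
      mul_le_mul_of_nonneg_left hA (by linarith)
    have m5 : d * (f + Y) ≤ d * (Q + ka) := mul_le_mul_of_nonneg_left h1 hd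
    linarith
  rcases le_or_gt d (w - g) with hdw | hdw
  · have m6 : 0 ≤ g * (T - (d - d * g + (g - w + d) * l)) := mul_nonneg (by linarith) (by linarith)
    have m7 : 0 ≤ (w - g - d) * (T - (g * l - w * (g - 1))) :=
      mul_nonneg (by linarith) (by linarith)
    have m8 : 0 ≤ (w - d) * (T + (g - 1) * (w - g)) := by linarith
    have m9 : 0 ≤ T + (g - 1) * (w - g) := nonneg_of_mul_nonneg_right m8 (by linarith)
    have m10 := sq_nonneg (3 * (g - 1) - 2 * (w - g))
    linarith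
  · rcases eq_or_lt_of_le hd with hd0 | hd1
    · rw [← hd0] at hK hdw
      have m6 : 0 ≤ (g - w) * l := mul_nonneg (by linarith) hl
      have m7 : 0 ≤ T := by linarith
      positivity
    · rcases le_or_gt (w + d * (w - 1) - g) 0 with hM | hM
      · have m6 : 0 ≤ l * (0 - (w + d * (w - 1) - g)) := mul_nonneg hl (by linarith)
        have m7 : 0 ≤ d ^ 2 * (w + 2) := by positivity
        have m8 : 0 ≤ (1 + d) * T := by linarith
        have m9 : 0 ≤ T := nonneg_of_mul_nonneg_right m8 (by linarith)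
        positivity
      · have m6 : 0 ≤ (d + g - w) * ((1 + d) * T - (d ^ 2 * (w + 2) + d -
            l * (w + d * (w - 1) - g))) := mul_nonneg (by linarith) (by linarith)
        have m7 : 0 ≤ (w + d * (w - 1) - g) * (T - (d - d * g + (g - w + d) * l)) :=
          mul_nonneg hM.le (by linarith)
        have m8 : 0 ≤ d * ((d + g) * T - ((d + g - w) * (d * (w + 2) + 1) -
            (g - 1) * (w + d * (w - 1) - g))) := by linarith
        have m9 := nonneg_of_mul_nonneg_right m8 hd1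
        have m10 := poly84 (b := g - 1) (d := d) (e := d + g - w) (by linarith) (by linarith)
          (by linarith) (by linarith)
        have m11 : 0 ≤ (d + g) * (24 * T + (g + w + 1 + w - 4) ^ 2) := by linarith
        exact nonneg_of_mul_nonneg_right m11 (by linarith)

end SIFU
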