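import Pool.Agent.H84.SIF.UnT
import Pool.Agent.H84.SIF.Gap
import Pool.Agent.H84.SIF.Rng

/-! The number of ones exceeds the conjectured value by at most `(n - k - 3) ^ 2 / 24`. -/

set_option autoImplicit false

namespace SIFU
open Finset

theorem side24 {P Q : Type} [Fintype P] [Fintype Q] [DecidableEq P] [DecidableEq Q]
    {A : P → Q → Bool} {k x D : ℕ} (cP : Fintype.card P = k + x)
    (cQ : Fintype.card Q = k + x) (hU : U A k) (hR : ∀ r, (Nr A r).card ≤ D)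
    (hC : ∀ c, (Nc A c).card ≤ D) (hD : 1 ≤ D) (p : P) (hp : (Nr A p).card = D) :
    24 * ((E A).card : ℤ) ≤ 24 * ((x : ℤ) ^ 2 + 3 * x + k) + ((x : ℤ) - 3) ^ 2 := by
  have hDx : D ≤ x + 1 := by
    rw [← hp]
    exact deg_le cQ hU p
  obtain ⟨w, hw⟩ : ∃ w, D + w = x + 1 := ⟨x + 1 - D, by omega⟩
  have hwz : (D : ℤ) + w = x + 1 := by exact_mod_cast hw
  rcases le_or_gt (w + 3) D with h | h
  · obtain ⟨κ, d, l, f, ι, q, Y, e1, e2, e3, e4, e5, e6, e7, e8, e9, e10⟩ :=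
      frame84 cP cQ hU hR hC hw hD p hp
    clear e7 e9 e2
    have hkx : 1 ≤ k + x := by rw [← cP]; exact Fintype.card_pos_iff.2 ⟨p⟩
    obtain ⟨m, hm⟩ : ∃ m, m + 1 = k + x := ⟨k + x - 1, by omega⟩
    have hm2 : k + x - 1 = m := by omega
    rw [hm2] at e8
    obtain ⟨T, hT⟩ : ∃ T : ℤ, T = ((x : ℤ) ^ 2 + 3 * x + k) - ((E A).card : ℤ) := ⟨_, rfl⟩
    zify at e1 e3 e4 e5 e6 e8 h hm
    have i2 : (0 : ℤ) ≤ d := Int.natCast_nonneg d
    have i3 : (0 : ℤ) ≤ κ := Int.natCast_nonneg κ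
    have i4 : (0 : ℤ) ≤ l := Int.natCast_nonneg l
    have i6 : (0 : ℤ) ≤ ι := Int.natCast_nonneg ι
    have i7 : (0 : ℤ) ≤ (ι : ℤ) * l := mul_nonneg i6 i4
    have h9 := gap84 (w := w) (d := d) (ka := κ) (l := l) (f := f) (Y := Y) (Q := q) (D := D)
      (T := T) i2 i3 i4 e1 h (by linarith) (by linarith) e5 e6 (by linarith) (by linarith)
    have h10 : (D : ℤ) + w - 4 = x - 3 := by linarith
    rw [h10] at h9
    linarith
  · have h1 := deg2 cP cQ hU hR hC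
    have h2 : ((E A).card : ℤ) ≤ k + 2 * x * D := by exact_mod_cast h1
    have h3 : (2 : ℤ) * D ≤ x + 3 := by
      have : 2 * D ≤ x + 3 := by omega
      exact_mod_cast this
    have h4 : (x : ℤ) * (2 * D) ≤ x * (x + 3) :=
      mul_le_mul_of_nonneg_left h3 (Int.natCast_nonneg x)
    have h5 := sq_nonneg ((x : ℤ) - 3)
    linarith

/-- `|E| ≤ x ^ 2 + 3 x + k + (x - 3) ^ 2 / 24` -/
theorem gap24 {P Q : Type} [Fintype P] [Fintype Q] [DecidableEq P] [DecidableEq Q]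
    {A : P → Q → Bool} {k x : ℕ} (cP : Fintype.card P = k + x)
    (cQ : Fintype.card Q = k + x) (hU : U A k) :
    24 * ((E A).card : ℤ) ≤ 24 * ((x : ℤ) ^ 2 + 3 * x + k) + ((x : ℤ) - 3) ^ 2 := by
  rcases (E A).eq_empty_or_nonempty with h | ⟨⟨r0, c0⟩, h0⟩
  · rw [h]
    simp only [card_empty, Nat.cast_zero, mul_zero]
    positivity
  have h0' : A r0 c0 = true := by simpa [E] using h0
  obtain ⟨p, _, hp⟩ := exists_max_image univ (fun r => (Nr A r).card) ⟨r0, mem_univ r0⟩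
  obtain ⟨v, _, hv⟩ := exists_max_image univ (fun c => (Nc A c).card) ⟨c0, mem_univ c0⟩
  have h1 : 1 ≤ (Nr A p).card :=
    le_trans (card_pos.2 ⟨c0, mem_Nr.2 h0'⟩) (hp r0 (mem_univ _))
  have h2 : 1 ≤ (Nc A v).card :=
    le_trans (card_pos.2 ⟨r0, mem_Nc.2 h0'⟩) (hv c0 (mem_univ _))
  rcases le_total (Nc A v).card (Nr A p).card with h3 | h3
  · exact side24 cP cQ hU (fun r => hp r (mem_univ _))
      (fun c => (hv c (mem_univ _)).trans h3) h1 p rfl
  · have hswapE : (E (fun c r => A r c)).card = (E A).card := by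
      rw [card_E_rows (fun c r => A r c), card_E_cols A]
      rfl
    have h4 := side24 (A := fun c r => A r c) (D := (Nc A v).card) cQ cP (U_swap hU)
      (fun c => hv c (mem_univ _)) (fun r => (hp r (mem_univ _)).trans h3) h2 v rfl
    rw [hswapE] at h4
    exact h4

/-- the gap between `M(n, I_k)` and the conjectured value is at most `(n - k - 3) ^ 2 / 24` -/
theorem gap_maxOnes (n k : ℕ) (hkn : k ≤ n) :
    24 * ((SIF.maxOnes n (SIF.idMat k) : ℤ) - ((n : ℤ) ^ 2 - (2 * k - 3) * n + k ^ 2 - 2 * k)) ≤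
      ((n : ℤ) - k - 3) ^ 2 := by
  obtain ⟨⟨A, hA, hAm⟩, _⟩ := SIF.maxOnes_spec (n := n) (SIF.idMat k)
  obtain ⟨x, rfl⟩ : ∃ x, n = k + x := ⟨n - k, by omega⟩
  have h1 := gap24 (k := k) (x := x) (Fintype.card_fin _) (Fintype.card_fin _) (U_of_strong hA)
  have h0 : (E A).card = SIF.ones A := rfl
  rw [h0, hAm] at h1
  push_cast
  have e1 : ((k : ℤ) + x - k - 3) = (x : ℤ) - 3 := by ring
  rw [e1]
  linarith

end SIFU
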