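import Pool.Agent.H10.LIN.Range

set_option autoImplicit false

namespace SIFU

theorem range_split5 (k j : ℕ)
    (h : k ≤ 10 ∨ k + j ≤ k + 13 ∨
      4 * k * (k + j) + 4 * k ≤ (k + j) ^ 2 + 2 * k ^ 2 + 9 * (k + j)) :
    ((k ≤ j + 8 ∧ k ^ 2 + 2 * k * j ≤ j ^ 2 + 9 * j + 5 * k) ∨ (k ≤ 10 ∧ 6 ≤ j) ∨
      (6 ≤ j ∧ j ≤ 13)) ∨ k + j ≤ k + 5 := by
  rcases Nat.lt_or_ge j 6 with h0 | h0
  · right; omega
  rcases h with h | h | h
  · left; right; left; exact ⟨h, h0⟩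
  · left; right; right; exact ⟨h0, by omega⟩
  · rcases Pool.H10Lin.range_split4 k j (Or.inr (Or.inr (Or.inr h))) with h1 | h1
    · rcases h1 with h1 | h1 | h1
      · exact Or.inl (Or.inl h1)
      · exact Or.inl (Or.inr (Or.inl h1))
      · left; right; right; omega
    · right; exact h1

end SIFU
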