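import Mathlib

set_option autoImplicit false

namespace SIFU

/-- The case distinction on `w` with the extra case `D = w + 3`, `3 ≤ w`. -/
theorem range84b {k x w D : ℤ} (hk : 2 ≤ k) (hw : 0 ≤ w) (hDx : D + w = x + 1)
    (hc : (k ≤ 9 ∧ 6 ≤ x) ∨ (6 ≤ x ∧ x ≤ 10) ∨ x = 12) :
    (2 * w + 1 ≤ D ∧ w ≤ 4) ∨ (2 * w + 1 ≤ D ∧ w + k - 3 ≤ D) ∨ (3 ≤ w ∧ D = w + 3) ∨
      (k + x) * D ≤ (x + 1) ^ 2 + (k + x - 1) ∨ k + 2 * x * D ≤ (x + 1) ^ 2 + (k + x - 1) := by
  obtain rfl : D = x + 1 - w := by linarith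
  rcases hc with ⟨hk9, hx6⟩ | ⟨hx6, hx10⟩ | h
  · rcases le_or_gt (k - 2) w with h1 | h1
    · right; right; right; left
      have h2 : (k + x) * (x + 1 - w) ≤ (k + x) * (x + 3 - k) :=
        mul_le_mul_of_nonneg_left (by linarith) (by linarith)
      have h3 : 0 ≤ k * (k - 2) := mul_nonneg (by linarith) (by linarith)
      nlinarith
    · rcases le_or_gt (2 * w + 1) (x + 1 - w) with h2 | h2
      · rcases le_or_gt w 4 with h3 | h3
        · exact Or.inl ⟨h2, h3⟩
        · right; left
          exact ⟨h2, by omega⟩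
      · have hw6 : w ≤ 6 := by omega
        have hx17 : x ≤ 17 := by omega
        have hw3 : 3 ≤ w := by omega
        interval_cases w <;> interval_cases k <;> first | (exfalso; omega) |
          (interval_cases x <;> first | (exfalso; omega) | norm_num)
  · have hD : x + 1 - w ≤ w + 2 ∨ x + 1 - w = w + 3 ∨ 2 * w + 1 ≤ x + 1 - w ∨ w + 4 ≤ x + 1 - w := by
      omega
    rcases le_or_gt (x + 1 - w) (w + 2) with h1 | h1
    · right; right; right; right
      have h2 : 2 * (x + 1 - w) ≤ x + 3 := by linarith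
      have h3 : x * (2 * (x + 1 - w)) ≤ x * (x + 3) :=
        mul_le_mul_of_nonneg_left h2 (by linarith)
      linarith
    · rcases le_or_gt (2 * w + 1) (x + 1 - w) with h2 | h2
      · exact Or.inl ⟨h2, by omega⟩
      · right; right; left
        omega
  · subst h
    rcases le_or_gt (12 + 1 - w) (w + 2) with h1 | h1
    · right; right; right; right
      linarith
    · rcases le_or_gt (2 * w + 1) (12 + 1 - w) with h2 | h2
      · exact Or.inl ⟨h2, by omega⟩
      · right; right; left
        omega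

end SIFU
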